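import Mathlib
import Pool.Agent.TH170.GS.TBDefs

/-!
# Integral motivic cohomology of smooth schemes over finite fields and of their limits: definitions
-/

set_option autoImplicit false

namespace Pool.Agent.Run7.h312.BS

open Pool.Agent.W495.TA Pool.Agent.W495.FM Pool.Agent.TH170

/-- Data of the integral motivic cohomology `H S i n = H^i(S, ℤ(n))` of regular schemes `S : W`. -/
structure MotivicCohomology (W : Type) where
  H : W → ℤ → ℤ → Type
  [grp : ∀ S i n, AddCommGroup (H S i n)]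

attribute [instance] MotivicCohomology.grp

variable {Ω : Type} [Field Ω] {V W : Type}

/-- The regular scheme `S : W` is the scheme `X : V`, which is smooth of pure dimension `d` over the
field with `q` elements: `H^i(X, ℤ(n))` modulo torsion is contained in `H^i(X, ℚ(n)) =
H_(2 d - i)^M(X, ℚ(d - n))`; there is no torsion for `i ≤ 0`, since `H^i(X, ℤ/m(n)) = 0` for `i < 0`;
`H_(2 d - i)(X, ℚ_ℓ(d - n)) = H^i(X, ℚ_ℓ(n))` over the algebraic closure is zero for `i < 0`, and a
power of the Frobenius operates on it as a power of `q ^ (-n)` for `i = 0`. -/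
structure IsSmooth (T : Homology Ω V) (D : MotivicCohomology W) (X : V) (S : W) (d q : ℕ) : Prop where
  card : 1 < q
  rational : ∀ i n : ℤ, ∃ f : D.H S i n → T.M X (2 * d - i) (d - n),
    IsAdd f ∧ ∀ x, f x = 0 → ∃ m : ℕ, m ≠ 0 ∧ m • x = 0
  torsion : ∀ (i n : ℤ) (x : D.H S i n) (m : ℕ), i ≤ 0 → m ≠ 0 → m • x = 0 → x = 0
  negative : ∀ (i n : ℤ) (e : T.E X (2 * d - i) (d - n)), i < 0 → e = 0
  degree : ∃ r : ℕ, r ≠ 0 ∧ ∀ (n : ℤ) (e : T.E X (2 * d - 0) (d - n)),
    (T.frob X (2 * d - 0) (d - n))^[r] e = ((q : Ω) ^ (r * n))⁻¹ • e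

/-- The regular scheme `S` is a limit of smooth schemes with the property `P` with affine transition
maps: every class in `H^i(S, ℤ(n))` comes from one of these schemes. -/
def IsLimitOf (T : Homology Ω V) (D : MotivicCohomology W) (P : V → Prop) (S : W) : Prop :=
  ∀ (i n : ℤ) (x : D.H S i n), ∃ (X : V) (S' : W) (d q : ℕ), P X ∧ IsSmooth T D X S' d q ∧
    ∃ f : D.H S' i n → D.H S i n, IsAdd f ∧ ∃ y, f y = x

/-- **The vanishing of Beilinson and Soulé** for `S`: `H^i(S, ℤ(n)) = 0` for all `i ≤ 0`, `n ≥ 1`. -/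
def Vanishing (D : MotivicCohomology W) (S : W) : Prop :=
  ∀ i n : ℤ, i ≤ 0 → 1 ≤ n → ∀ x : D.H S i n, x = 0

/-- The vanishing of Beilinson and Soulé for all limits of smooth schemes generated by abelian
varieties with the slope types `Φ`. -/
def Holds {p : ℕ} [Fact p.Prime] (ν : PadicAlgCl p ≃+* ℂ) {I : Type} (K : I → Type)
    [∀ i, Field (K i)] (M : ∀ i, (K i →+* ℂ) → ℤ) (Φ : ∀ i, Set (K i →+* ℂ)) : Prop :=
  ∀ (Ω : Type) [Field Ω] [IsAlgClosed Ω] [CharZero Ω] (V W : Type) (T : Homology Ω V)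
    (D : MotivicCohomology W), IsHomology T →
    ∀ S : W, IsLimitOf T D (Generated T (GS.IsAbelianOfTypes ν K M Φ T)) S → Vanishing D S

end Pool.Agent.Run7.h312.BS
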