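import Mathlib
import Pool.Agent.Run7.h312.BS.Defs
import Pool.Agent.TH170.GS.TB

/-!
# The vanishing of Beilinson and Soulé from the conjecture of Tate and Beilinson
-/

set_option autoImplicit false

namespace Pool.Agent.Run7.h312.BS

open Pool.Agent.W495.TA Pool.Agent.W495.FM Pool.Agent.TH170

variable {Ω : Type} [Field Ω] {V W : Type}

theorem IsAdd.zero {A B : Type} [AddCommGroup A] [AddCommGroup B] {f : A → B} (h : IsAdd f) :
    f 0 = 0 := by
  have h1 := h 0 0
  rw [add_zero] at h1
  exact left_eq_add.1 h1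

/-- `TB` implies that the regulator is injective. -/
theorem reg_inj {T : Homology Ω V} {X : V} (hTB : TB T X) {i j : ℤ} {x : T.M X i j}
    (hx : T.reg X i j x = 0) : x = 0 := by
  by_contra hne
  have h1 := (hTB i j).2.1 1 (fun _ => x) (LinearIndependent.of_subsingleton 0 hne)
  exact h1.ne_zero 0 hx

theorem zero_of_smooth [CharZero Ω] {T : Homology Ω V} (hT : IsHomology T)
    {D : MotivicCohomology W} {X : V} {S : W} {d q : ℕ} (h : IsSmooth T D X S d q)
    (hTB : TB T X) : Vanishing D S := by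
  intro i n hi hn x
  obtain ⟨f, hf, hf0⟩ := h.rational i n
  suffices hx : f x = 0 by
    obtain ⟨m, hm, hmx⟩ := hf0 x hx
    exact h.torsion i n x m hi hm hmx
  apply reg_inj hTB
  rcases lt_or_eq_of_le hi with hi | rfl
  · exact h.negative i n _ hi
  · obtain ⟨r, hr, hF⟩ := h.degree
    set e := T.reg X (2 * d - 0) (d - n) (f x) with he
    have h1 : T.frob X (2 * d - 0) (d - n) e = e := hT.frob_reg _ _ _ _
    have h2 : (T.frob X (2 * d - 0) (d - n))^[r] e = e := Function.iterate_fixed h1 r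
    rw [hF n e] at h2
    by_contra hne
    have h3 : (((q : Ω) ^ (r * n))⁻¹ - 1) • e = 0 := by
      rw [sub_smul, one_smul, h2, sub_self]
    rcases smul_eq_zero.1 h3 with h4 | h4
    · have h5 : ((q : Ω) ^ (r * n)) = 1 := by
        rw [sub_eq_zero] at h4
        exact inv_eq_one.1 h4
      obtain ⟨k, hk⟩ : ∃ k : ℕ, (r : ℤ) * n = k := ⟨((r : ℤ) * n).toNat, by
        rw [Int.toNat_of_nonneg]
        positivity⟩
      have hk0 : k ≠ 0 := by
        rintro rfl
        rcases mul_eq_zero.1 hk with h6 | h6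
        · exact hr (by exact_mod_cast h6)
        · omega
      rw [hk, zpow_natCast] at h5
      have h7 : (q : ℕ) ^ k = 1 := by exact_mod_cast h5
      have h8 := Nat.one_lt_pow hk0 h.card
      omega
    · exact hne h4

theorem vanishing_of_limit [CharZero Ω] {T : Homology Ω V} (hT : IsHomology T)
    {D : MotivicCohomology W} {P : V → Prop} (hP : ∀ X, P X → TB T X) {S : W}
    (h : IsLimitOf T D P S) : Vanishing D S := by
  intro i n hi hn x
  obtain ⟨X, S', d, q, hX, hS, f, hf, y, rfl⟩ := h i n x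
  rw [zero_of_smooth hT hS (hP X hX) i n hi hn y]
  exact IsAdd.zero hf

theorem holds_of {p : ℕ} [Fact p.Prime] {ν : PadicAlgCl p ≃+* ℂ} {I : Type} (K : I → Type)
    [∀ i, Field (K i)] (M : ∀ i, (K i →+* ℂ) → ℤ) (Φ : ∀ i, Set (K i →+* ℂ))
    (h : ∀ Y : RedAV p ν, GS.OfTypes K M Φ Y → ∃ Z : RedAV p ν,
      TH117.BL.HasElementaryRelations Z ∧ TH117.BL.IsPowersTimesSupersingular Z Y) :
    Holds ν K M Φ := fun _ _ _ _ _ _ _ _ hT _ hS =>
  vanishing_of_limit hT (fun _ hX => GS.tb_types h hT hX) hS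

end Pool.Agent.Run7.h312.BS
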